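import Mathlib

set_option autoImplicit false

namespace Pool.Agent.Results.MP_7aff4e_co.Alpha
open Set

/-- number of neighbours of `v` in `S` -/
noncomputable def dg {V : Type} (G : SimpleGraph V) (v : V) (S : Set V) : ℕ :=
  (G.neighborSet v ∩ S).ncard

/-- the bipartition `S, Sᶜ` is equitable -/
def Equitable {V : Type} (G : SimpleGraph V) (S : Set V) : Prop :=
  (∀ i ∈ S, ∀ i' ∈ S, dg G i S = dg G i' S ∧ dg G i Sᶜ = dg G i' Sᶜ) ∧
  (∀ j ∈ Sᶜ, ∀ j' ∈ Sᶜ, dg G j S = dg G j' S ∧ dg G j Sᶜ = dg G j' Sᶜ)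

/-- `α` is realisable -/
def Realisable (α : ℝ) : Prop :=
  ∃ (V : Type) (_ : Finite V) (G : SimpleGraph V) (S : Set V) (m₁ m₂ r : ℝ),
    G.Connected ∧ S.Nonempty ∧ Sᶜ.Nonempty ∧ ¬ Equitable G S ∧
    (∀ i ∈ S, -(dg G i S : ℝ) + m₁ * dg G i Sᶜ = r) ∧
    (∀ j ∈ Sᶜ, -(dg G j Sᶜ : ℝ) + m₂ * dg G j S = r) ∧
    |m₁ + m₂| < 2 ∧ m₂ < m₁ ∧ α = Real.arctan (√(4 - (m₁ + m₂) ^ 2) / (m₁ - m₂))

theorem rat {V : Type} [Finite V] (G : SimpleGraph V) (S : Set V) (m₁ m₂ r : ℝ)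
    (hc : G.Connected) (h2 : Sᶜ.Nonempty)
    (hn : ¬ ∀ i ∈ S, ∀ i' ∈ S, dg G i S = dg G i' S ∧ dg G i Sᶜ = dg G i' Sᶜ)
    (e1 : ∀ i ∈ S, -(dg G i S : ℝ) + m₁ * dg G i Sᶜ = r)
    (e2 : ∀ j ∈ Sᶜ, -(dg G j Sᶜ : ℝ) + m₂ * dg G j S = r) :
    ∃ a b : ℚ, m₁ = a ∧ m₂ = b := by
  push Not at hn
  obtain ⟨i, hi, i', hi', hn⟩ := hn
  have a1 := e1 i hi
  have a2 := e1 i' hi'
  have hne : (dg G i Sᶜ : ℝ) - dg G i' Sᶜ ≠ 0 := by
    intro e
    have e3 : (dg G i Sᶜ : ℝ) = dg G i' Sᶜ := by linarith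
    have e4 : (dg G i S : ℝ) = dg G i' S := by rw [e3] at a1; linarith
    exact hn (by exact_mod_cast e4) (by exact_mod_cast e3)
  have b1 : m₁ = ((dg G i S : ℝ) - dg G i' S) / ((dg G i Sᶜ : ℝ) - dg G i' Sᶜ) := by
    rw [eq_div_iff hne]; linarith
  obtain ⟨j0, hj0⟩ := h2
  obtain ⟨p⟩ := hc.preconnected i j0
  obtain ⟨d, -, hd1, hd2⟩ := p.exists_boundary_dart S hi hj0
  have hpos : (dg G d.snd S : ℝ) ≠ 0 := by
    have : 0 < dg G d.snd S := (Set.ncard_pos (Set.toFinite _)).2 ⟨d.fst, d.adj.symm, hd1⟩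
    exact_mod_cast this.ne'
  have a3 := e2 d.snd hd2
  obtain ⟨a, ha⟩ : ∃ a : ℚ, m₁ = a :=
    ⟨((dg G i S : ℚ) - dg G i' S) / ((dg G i Sᶜ : ℚ) - dg G i' Sᶜ), by rw [b1]; push_cast; rfl⟩
  refine ⟨a, (-(dg G i S : ℚ) + a * dg G i Sᶜ + dg G d.snd Sᶜ) / dg G d.snd S, ha, ?_⟩
  push_cast
  rw [eq_div_iff hpos, ← ha]
  linarith

theorem result (α : ℝ) (h0 : 0 < α) (h1 : α < Real.pi / 2) :
    Realisable α ↔ ∃ x : ℚ, Real.tan α ^ 2 = x := by
  constructor
  · rintro ⟨V, _, G, S, m₁, m₂, r, hc, s1, s2, hn, e1, e2, b1, b2, rfl⟩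
    have key : ∃ a b : ℚ, m₁ = a ∧ m₂ = b := by
      rcases not_and_or.1 hn with hn | hn
      · exact rat G S m₁ m₂ r hc s2 hn e1 e2
      · obtain ⟨a, b, h3, h4⟩ := rat G Sᶜ m₂ m₁ r hc (by simpa using s1)
          (by
            intro c
            apply hn
            intro j hj j' hj'
            have := c j hj j' hj'
            rw [compl_compl] at this
            exact this.symm)
          (by simpa using e2) (by simpa using e1)
        exact ⟨b, a, h4, h3⟩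
    obtain ⟨a, b, rfl, rfl⟩ := key
    refine ⟨(4 - (a + b) ^ 2) / (a - b) ^ 2, ?_⟩
    have h5 : (0 : ℝ) ≤ 4 - ((a : ℝ) + b) ^ 2 := by
      have := abs_lt.1 b1
      nlinarith
    rw [Real.tan_arctan, div_pow, Real.sq_sqrt h5]
    push_cast
    rfl
  · rintro ⟨x, hx⟩
    have ht : 0 < Real.tan α := Real.tan_pos_of_pos_of_lt_pi_div_two h0 h1
    have hxp : (0 : ℝ) < x := by rw [← hx]; positivity
    have hxq : 0 < x := by exact_mod_cast hxp
    obtain ⟨p, q, hp, hq, hpq⟩ : ∃ p q : ℕ, 0 < p ∧ 0 < q ∧ (x : ℝ) = p / q := by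
      refine ⟨x.num.toNat, x.den, ?_, x.den_pos, ?_⟩
      · have := Rat.num_pos.2 hxq; omega
      · have h6 : ((x.num.toNat : ℕ) : ℝ) = x.num := by
          have := Rat.num_pos.2 hxq
          exact_mod_cast congrArg (Int.cast : ℤ → ℝ) (Int.toNat_of_nonneg this.le)
        rw [h6, Rat.cast_def]
    have hp' : (0 : ℝ) < p := by exact_mod_cast hp
    have hq' : (0 : ℝ) < q := by exact_mod_cast hq
    let G := completeBipartiteGraph (Fin (p + q)) (Fin (4 * q) ⊕ Fin (p + q))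
    let S : Set (Fin (p + q) ⊕ (Fin (4 * q) ⊕ Fin (p + q))) := (range (Sum.inr ∘ Sum.inr))ᶜ
    have d1 : ∀ u, dg G (Sum.inl u) S = 4 * q := by
      intro u
      have : G.neighborSet (Sum.inl u) ∩ S = range (Sum.inr ∘ Sum.inl) := by
        ext (y | y | y) <;> simp [G, S]
      rw [dg, this, Set.ncard_range_of_injective (Sum.inr_injective.comp Sum.inl_injective)]
      simp
    have d2 : ∀ u, dg G (Sum.inl u) Sᶜ = p + q := by
      intro u
      have : G.neighborSet (Sum.inl u) ∩ Sᶜ = range (Sum.inr ∘ Sum.inr) := by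
        ext (y | y | y) <;> simp [G, S]
      rw [dg, this, Set.ncard_range_of_injective (Sum.inr_injective.comp Sum.inr_injective)]
      simp
    have d3 : ∀ u, dg G (Sum.inr u) S = p + q := by
      intro u
      have : G.neighborSet (Sum.inr u) ∩ S = range Sum.inl := by
        ext (y | y | y) <;> simp [G, S]
      rw [dg, this, Set.ncard_range_of_injective Sum.inl_injective]
      simp
    have d4 : ∀ u, dg G (Sum.inr u) Sᶜ = 0 := by
      intro u
      have : G.neighborSet (Sum.inr u) ∩ Sᶜ = ∅ := by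
        ext (y | y | y) <;> simp [G, S]
      rw [dg, this, Set.ncard_empty]
    let u0 : Fin (p + q) := ⟨0, by omega⟩
    let a0 : Fin (4 * q) := ⟨0, by omega⟩
    have hs : (3 * (q : ℝ) - p) / (p + q) + -1 = 2 * (q - p) / (p + q) := by field_simp; ring
    refine ⟨_, inferInstance, G, S, (3 * q - p) / (p + q), -1, -(p + q), ?_, ⟨Sum.inl u0, by simp [S]⟩,
      ⟨Sum.inr (Sum.inr u0), by simp [S]⟩, ?_, ?_, ?_, ?_, ?_, ?_⟩
    · rw [SimpleGraph.connected_iff_exists_forall_reachable]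
      refine ⟨Sum.inl u0, ?_⟩
      rintro (y | y)
      · exact (SimpleGraph.Adj.reachable (v := Sum.inr (Sum.inl a0)) (by simp [G])).trans
          (SimpleGraph.Adj.reachable (by simp [G]))
      · exact SimpleGraph.Adj.reachable (by simp [G])
    · intro h
      have := (h.1 (Sum.inl u0) (by simp [S]) (Sum.inr (Sum.inl a0)) (by simp [S])).2
      rw [d2, d4] at this
      omega
    · rintro (y | y) _
      · rw [d1, d2]; push_cast; field_simp; ring
      · rw [d3, d4]; push_cast; ring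
    · rintro (y | y) hy
      · simp [S] at hy
      · rw [d3, d4]; push_cast; ring
    · rw [hs, abs_lt, lt_div_iff₀ (by positivity), div_lt_iff₀ (by positivity)]
      constructor <;> linarith
    · rw [lt_div_iff₀ (by positivity)]; linarith
    · rw [← Real.arctan_tan (by linarith [Real.pi_pos]) h1]
      congr 1
      have e1 : (3 * (q : ℝ) - p) / (p + q) - -1 = 4 * q / (p + q) := by field_simp; ring
      rw [hs, e1, eq_div_iff (by positivity)]
      symm
      rw [Real.sqrt_eq_iff_mul_self_eq (by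
        have : 4 - (2 * ((q : ℝ) - p) / (p + q)) ^ 2 = 16 * p * q / (p + q) ^ 2 := by
          field_simp; ring
        rw [this]; positivity) (by positivity)]
      have e2 : Real.tan α * (4 * q / (p + q)) * (Real.tan α * (4 * q / (p + q))) =
          Real.tan α ^ 2 * (4 * q / (p + q)) ^ 2 := by ring
      rw [e2, hx, hpq]
      field_simp
      ring

end Pool.Agent.Results.MP_7aff4e_co.Alpha
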